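import Pool.Agent.Y743.AF.Sets

/-!
# No affine map other than the identity maps the ordinates of zeta zeros to ordinates, even approximately

Let `0 < γ_1 ≤ γ_2 ≤ …` be the ordinates of the nontrivial zeros of `ζ`, with multiplicity.  There is
an absolute `κ > 0` such that for all real `(lam, c) ≠ (1, 0)`, for all large `N` and for every
permutation `σ` of `{1, …, N}` the inequality `|γ_{σ n} - (lam γ_n + c)| ≥ κ / log N` holds for at
least `κ N` of the indices `n ≤ N`.  In particular at least `κ N(T)` of the zeros with ordinate at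
most `T` have an ordinate `x` for which `lam x + c` is not the ordinate of a zero.  No hypothesis is
assumed.

Idea of the proof.  If a permutation matches the `γ`'s with the `lam γ + c`'s, then the numbers of
the `γ`'s in `(t, t + h]` and in `((t - c) / lam, (t - c) / lam + h / lam]` agree in mean up to a small
error, where `h` is a large constant times the mean spacing.  For `lam` not near `1` the densities
already differ.  For `lam` near `1` the difference of the fluctuations is approximated (in mean
square, up to `O(1)`, by Selberg's method with his density theorem) by the difference of two prime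
sums, one at `t` and one at `(t - c) / lam`.  As `(lam, c) ≠ (1, 0)`, these two sums are uncorrelated
(for `lam ≠ 1` because `p ^ i t` and `q ^ (i t / lam)` rarely resonate, for `lam = 1` because of
`∑ p ≤ X, cos (c log p) / p = O(1)`), and so the mean square of their difference is a constant times
`log (h log T)`, which is large.  A fourth moment bound and Hölder's inequality turn it into a lower
bound for the first absolute moment.
-/

set_option autoImplicit false

open Filter

namespace Pool.Agent.Results.MP_0ec205_nt.AffineCopies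

/-- multiplicity of `s` as a zero of the Riemann zeta function (order of vanishing at `s`) -/
noncomputable def zmult (s : ℂ) : ℕ := analyticOrderNatAt riemannZeta s

/-- the number of nontrivial zeros of `ζ` with ordinate in `(0, t]`, with multiplicity -/
noncomputable def NZ (t : ℝ) : ℕ :=
  ∑ᶠ s ∈ {s : ℂ | riemannZeta s = 0 ∧ 0 < s.re ∧ s.re < 1 ∧ 0 < s.im ∧ s.im ≤ t}, zmult s

/-- for `n ≥ 1`: the `n`-th positive ordinate `γ n` of a nontrivial zero of `ζ`, the ordinates being
listed in nondecreasing order and repeated according to multiplicity -/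
noncomputable def γ (n : ℕ) : ℝ := sInf {t : ℝ | n ≤ NZ t}

/-- the set of the positive ordinates of the nontrivial zeros of `ζ` -/
def Om : Set ℝ := {x | 0 < x ∧ ∃ s : ℂ, riemannZeta s = 0 ∧ 0 < s.re ∧ s.re < 1 ∧ s.im = x}

/-- **Theorem.** There is `κ > 0` such that for all real `(lam, c) ≠ (1, 0)`:

* for all large `N` and for every permutation `σ` of `{1, …, N}` at least `κ N` of the `n ≤ N` satisfy
  `|γ (σ n) - (lam * γ n + c)| ≥ κ / log N`;
* if `lam ≠ 0`, then for all large `T` the number of the ordinates `x ≤ T` for which `lam * x + c` is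
  an ordinate `≤ T` as well is at most `(1 - κ) * NZ T`. -/
theorem result : ∃ κ : ℝ, 0 < κ ∧ ∀ lam c : ℝ, (lam ≠ 1 ∨ c ≠ 0) →
    (∀ᶠ N : ℕ in atTop, ∀ σ : ℕ → ℕ,
      (∀ n ∈ Finset.Icc 1 N, σ n ∈ Finset.Icc 1 N) → Set.InjOn σ (Finset.Icc 1 N) →
      κ * N ≤ (((Finset.Icc 1 N).filter
        (fun n => κ / Real.log N ≤ |γ (σ n) - (lam * γ n + c)|)).card : ℝ)) ∧
    (lam ≠ 0 → ∀ᶠ T : ℝ in atTop,
      ({x : ℝ | x ∈ Om ∧ x ≤ T ∧ lam * x + c ∈ Om ∧ lam * x + c ≤ T}.ncard : ℝ) ≤
        (1 - κ) * NZ T) := by
  obtain ⟨κ, hκ, h⟩ := Pool.Agent.Y743.AF.affine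
  exact ⟨κ, hκ, fun lam c hlc => ⟨h lam c hlc, fun h0 =>
    Pool.Agent.Y743.AF.sets hκ h0 (h lam c hlc)⟩⟩

end Pool.Agent.Results.MP_0ec205_nt.AffineCopies
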