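import Pool.Agent.Y743.AP.Main

/-!
# Ordinates of zeta zeros in arithmetic progressions

Assume the Riemann hypothesis.  At most half of the terms of an arithmetic progression of real
numbers are ordinates of zeros of zeta, counted with multiplicity: for all `α > 0`, `ε > 0` and all
large `N`,
`∑_{n ≤ N} m(α n + β) ≤ (1/2 + ε) N`, uniformly for `0 ≤ β ≤ N`,
where `m(t)` is the multiplicity of `1/2 + i t` as a zero of zeta.  More generally, if
`0 ≤ β ≤ N ^ A` with `A ≥ 1` (short progressions at large height) the bound is `(A / 2 + ε) N`, which
is nontrivial for `A < 2`.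

If the ordinates are linearly independent over the rationals then at most two terms of a progression
are ordinates, because any three terms satisfy a linear relation with integer coefficients.
Unconditionally, at most two thirds of the terms are ordinates (Li and Radziwiłł, by the mollifier
method; earlier work by Putnam and by Martin and Ng).

Idea of the proof.  The explicit formula with the Fejér kernel, summed over the progression.  The
sum of `n ^ (- i t)` over the terms `t` of the progression is small unless `α log n / 2π` is close to
an integer, and the integers `n` for which it is are so rare that primes up to `N ^ (2 - δ)` can be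
used.
-/

set_option autoImplicit false

namespace Pool.Agent.Results.MP_0ec205_nt.ArithmeticProgressions

/-- the multiplicity of `1/2 + i t` as a zero of the Riemann zeta function (`0` if it is no zero) -/
noncomputable def m (t : ℝ) : ℕ := analyticOrderNatAt riemannZeta (1 / 2 + Complex.I * t)

/-- **Theorem.** On the Riemann hypothesis, for all `α > 0`, `A ≥ 1`, `ε > 0`, for all large `N` and
all `β` with `0 ≤ β ≤ N ^ A` the sum of the multiplicities of the ordinates among the terms `β + α n`,
`1 ≤ n ≤ N`, is at most `(A / 2 + ε) N`. -/
theorem result (RH : RiemannHypothesis) (α A ε : ℝ) (hα : 0 < α) (hA : 1 ≤ A) (hε : 0 < ε) :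
    ∃ N₀ : ℕ, ∀ N : ℕ, N₀ ≤ N → ∀ β : ℝ, 0 ≤ β → β ≤ (N : ℝ) ^ A →
      ∑ n ∈ Finset.Icc 1 N, (m (β + α * n) : ℝ) ≤ (A / 2 + ε) * N := by
  have hRHs : Pool.Agent.H452R4.LI.RH0 := by
    intro s h0 h1 hz
    refine RH s hz ?_ ?_
    · rintro ⟨n, hn⟩
      rw [hn] at h0
      simp at h0
      have : (0 : ℝ) ≤ n := n.cast_nonneg
      linarith
    · rintro rfl
      simp at h1
  exact Pool.Agent.Y743.AP.ap_main hRHs α A ε hα hA hε

end Pool.Agent.Results.MP_0ec205_nt.ArithmeticProgressions
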