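import Pool.Agent.Y743.LR.NT5

/-!
# Consecutive ordinates of the zeta zeros satisfy no common linear relation, even approximately

Assume the Riemann hypothesis and let `0 < γ_1 ≤ γ_2 ≤ …` be the ordinates of the nontrivial zeros,
with multiplicity.  For every `k` there is `ε > 0` such that for all large `N`, all real
`c 0, …, c (k - 1)` with `|c j| ≥ 1` for some `j` and all real `b` at least `ε N` of the indices
`n ≤ N` satisfy `|c 0 γ_n + … + c (k - 1) γ_{n + k - 1} - b| ≥ ε / log γ_n`.

Idea of the proof.  Otherwise, by compactness, there are heights `T → ∞` and a polynomial `c ≠ 0`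
such that `c` in the shift operator `S` maps the gaps of the unfolded ordinates `y_n` to a sequence
that is small for almost all `n`.  Write `c (X - 1)² = (X - 1)^r D` with `D` prime to `X - 1`.  By
Bézout `y = G + V(S) (gaps)`, where `(S - 1)^r G` is small almost everywhere; as the gaps are tight,
the order of the difference can be reduced to two, so that `G` is locally linear, and its slope has
to be one.  Therefore the number of zeros in a window of length `a` mean spacings differs from `a`
by a quantity whose mean square is bounded uniformly in `a`.  But this mean square, the number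
variance, is `π⁻² log (1 + a) + O(1)`.
-/

set_option autoImplicit false

open Filter

namespace Pool.Agent.Results.MP_0ec205_nt.ConsecutiveOrdinates

/-- multiplicity of `s` as a zero of the Riemann zeta function (order of vanishing at `s`) -/
noncomputable def zmult (s : ℂ) : ℕ := analyticOrderNatAt riemannZeta s

/-- the number of nontrivial zeros of `ζ` with ordinate in `(0, t]`, with multiplicity -/
noncomputable def NZ (t : ℝ) : ℕ :=
  ∑ᶠ s ∈ {s : ℂ | riemannZeta s = 0 ∧ 0 < s.re ∧ s.re < 1 ∧ 0 < s.im ∧ s.im ≤ t}, zmult s

/-- for `n ≥ 1`: the `n`-th positive ordinate `γ n` of a nontrivial zero of `ζ`, the ordinates being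
listed in nondecreasing order and repeated according to multiplicity -/
noncomputable def γ (n : ℕ) : ℝ := sInf {t : ℝ | n ≤ NZ t}

/-- **Theorem.** On the Riemann hypothesis, for every `k` there is `ε > 0` such that for all large
`N`, every linear form in `k` consecutive ordinates with a coefficient of modulus at least `1` and
every real `b`, the form differs from `b` by at least `ε / log γ_n` for at least `ε N` indices
`n ≤ N`. -/
theorem result (RH : RiemannHypothesis) (k : ℕ) :
    ∃ ε : ℝ, 0 < ε ∧ ∀ᶠ N : ℕ in atTop, ∀ c : Fin k → ℝ, (∃ j, 1 ≤ |c j|) → ∀ b : ℝ,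
      ε * N ≤ ({n : ℕ | 1 ≤ n ∧ n ≤ N ∧
        ε / Real.log (γ n) ≤ |∑ j : Fin k, c j * γ (n + j) - b|}.ncard : ℝ) :=
  Pool.Agent.Y743.LR.ordinates RH k

end Pool.Agent.Results.MP_0ec205_nt.ConsecutiveOrdinates
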